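import Pool.Agent.Q293.DirReinf

/-!
# Directed edge reinforced random walk with weak polynomial reinforcement is never trapped

A trapped trajectory is one of countably many eventually periodic ones. Along such a trajectory the
crossing numbers grow linearly, so that at time `n` a competing neighbour is chosen with
probability at least of order `n^(-2γ)` (the back edge), or `n^(-γ)` if some vertex of the circuit
has a third neighbour.
-/

set_option autoImplicit false

open MeasureTheory

namespace Pool.Agent.Results.MP_856411_pr.NeverTrapped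

/-- The crossing number: the net number of jumps from `x` to `y` before time `n`. -/
def cross {V : Type} [DecidableEq V] (s : ℕ → V) (n : ℕ) (x y : V) : ℤ :=
  ∑ k ∈ Finset.range n, ((if s k = x ∧ s (k + 1) = y then (1 : ℤ) else 0)
    - (if s k = y ∧ s (k + 1) = x then 1 else 0))

/-- Polynomial reinforcement with parameter `γ`: the weight attached to the crossing number `c`. -/
noncomputable def weight (γ : ℝ) (c : ℤ) : ℝ :=
  if 0 < c then (c : ℝ) ^ γ else if c = 0 then 1 else (-(c : ℝ)) ^ (-γ)

/-- The conditional probability of the step from `s n` to `s (n + 1)` given the past. -/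
noncomputable def trans {V : Type} [DecidableEq V] (G : SimpleGraph V) [G.LocallyFinite]
    [DecidableRel G.Adj] (γ : ℝ) (s : ℕ → V) (n : ℕ) : ℝ :=
  if G.Adj (s n) (s (n + 1)) then
    weight γ (cross s n (s n) (s (n + 1))) / ∑ y ∈ G.neighborFinset (s n),
      weight γ (cross s n (s n) y)
  else 0

/-- The process `X` is the walk with polynomial reinforcement `γ` on `G` started at `v`. -/
def IsWalk {V : Type} [DecidableEq V] [MeasurableSpace V] (G : SimpleGraph V) [G.LocallyFinite]
    [DecidableRel G.Adj] (γ : ℝ) (v : V) {Ω : Type} [MeasurableSpace Ω] (μ : Measure Ω)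
    (X : ℕ → Ω → V) : Prop :=
  (∀ n, Measurable (X n)) ∧ ∀ (n : ℕ) (s : ℕ → V), μ {ω | ∀ k ≤ n, X k ω = s k} =
    if s 0 = v then ENNReal.ofReal (∏ k ∈ Finset.range n, trans G γ s k) else 0

/-- The trajectory `s` is trapped in some directed circuit: there are distinct vertices `u i`
(`i` modulo `m ≥ 3`) with `u i` adjacent to `u (i + 1)`, and `N`, `i` such that
`s (N + j) = u (i + j)` for all `j`. -/
def Trapped {V : Type} (G : SimpleGraph V) (s : ℕ → V) : Prop :=
  ∃ (m : ℕ) (u : ZMod m → V), 3 ≤ m ∧ Function.Injective u ∧ (∀ i, G.Adj (u i) (u (i + 1))) ∧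
    ∃ (N : ℕ) (i : ZMod m), ∀ j : ℕ, s (N + j) = u (i + j)

section Helpers

variable {V : Type} [DecidableEq V] (G : SimpleGraph V) [G.LocallyFinite] [DecidableRel G.Adj]
  (γ : ℝ)

theorem cross_congr (s s' : ℕ → V) (n : ℕ) (h : ∀ k ≤ n, s k = s' k) (x y : V) :
    cross s n x y = cross s' n x y := by
  unfold cross
  apply Finset.sum_congr rfl
  intro k hk
  have hk' := Finset.mem_range.1 hk
  rw [h k (by omega), h (k + 1) (by omega)]

/-- the sequence of a history -/
def seqOf (v : V) (h : List V) (k : ℕ) : V := h.reverse.getD k v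

omit [DecidableEq V] in
theorem seqOf_shist (v : V) (s : ℕ → V) (n k : ℕ) (hk : k ≤ n) :
    seqOf v (Q293.HistWalk.shist s n) k = s k := by
  unfold seqOf Q293.HistWalk.shist
  rw [List.reverse_reverse, List.getD_eq_getElem?_getD]
  simp [show k < n + 1 by omega]

/-- transition law after a history -/
noncomputable def law (hne : ∀ x, (G.neighborFinset x).Nonempty) (v : V) (h : List V) : PMF V :=
  PMF.ofFinset (fun y => if G.Adj (seqOf v h (h.length - 1)) y then
      ENNReal.ofReal (weight γ (cross (seqOf v h) (h.length - 1) (seqOf v h (h.length - 1)) y) /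
        ∑ z ∈ G.neighborFinset (seqOf v h (h.length - 1)),
          weight γ (cross (seqOf v h) (h.length - 1) (seqOf v h (h.length - 1)) z)) else 0)
    (G.neighborFinset (seqOf v h (h.length - 1)))
    (by
      set x := seqOf v h (h.length - 1)
      set w : V → ℝ := fun z => weight γ (cross (seqOf v h) (h.length - 1) x z)
      have hw : ∀ z, 0 < w z := fun z => Q293.DirReinf.weight_pos γ _
      have hS : 0 < ∑ z ∈ G.neighborFinset x, w z := Finset.sum_pos (fun z _ => hw z) (hne x)
      have h1 : ∑ y ∈ G.neighborFinset x, (if G.Adj x y then ENNReal.ofReal (w y /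
          ∑ z ∈ G.neighborFinset x, w z) else 0)
          = ∑ y ∈ G.neighborFinset x, ENNReal.ofReal (w y / ∑ z ∈ G.neighborFinset x, w z) := by
        apply Finset.sum_congr rfl
        intro y hy
        rw [if_pos ((SimpleGraph.mem_neighborFinset _ _ _).1 hy)]
      rw [h1, ← ENNReal.ofReal_sum_of_nonneg fun y _ => div_nonneg (hw y).le hS.le,
        ← Finset.sum_div, div_self hS.ne', ENNReal.ofReal_one])
    (by
      intro y hy
      rw [SimpleGraph.mem_neighborFinset] at hy
      rw [if_neg hy])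

theorem law_apply (hne : ∀ x, (G.neighborFinset x).Nonempty) (v : V) (s : ℕ → V) (n : ℕ) :
    law G γ hne v (Q293.HistWalk.shist s n) (s (n + 1)) = ENNReal.ofReal (trans G γ s n) := by
  have hlen : (Q293.HistWalk.shist s n).length - 1 = n := by
    rw [Q293.HistWalk.shist_length]; rfl
  have hseq : ∀ k ≤ n, seqOf v (Q293.HistWalk.shist s n) k = s k := fun k hk =>
    seqOf_shist v s n k hk
  unfold law trans
  rw [PMF.ofFinset_apply, hlen, hseq n le_rfl]
  simp only [cross_congr (seqOf v (Q293.HistWalk.shist s n)) s n hseq]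
  split_ifs
  · rfl
  · simp

theorem exists_walk [Countable V] [MeasurableSpace V] [DiscreteMeasurableSpace V]
    (hne : ∀ x, (G.neighborFinset x).Nonempty) (v : V) :
    ∃ (Ω : Type) (_ : MeasurableSpace Ω) (μ : Measure Ω) (_ : IsProbabilityMeasure μ)
      (X : ℕ → Ω → V), IsWalk G γ v μ X := by
  refine ⟨List V → V, inferInstance,
    Measure.infinitePi (fun h : List V => (law G γ hne v h).toMeasure), inferInstance,
    Q293.HistWalk.proc v, Q293.HistWalk.measurable_proc v, ?_⟩
  intro n s
  rw [Q293.HistWalk.cylinder v (law G γ hne v) s n]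
  by_cases hs : s 0 = v
  · rw [if_pos hs, if_pos hs, ENNReal.ofReal_prod_of_nonneg]
    · apply Finset.prod_congr rfl
      intro k _
      rw [law_apply]
    · intro k _
      exact Q293.DirReinf.trans_nonneg G γ s k
  · rw [if_neg hs, if_neg hs]

theorem null_of_tendsto [MeasurableSpace V] (v : V) {Ω : Type} [MeasurableSpace Ω]
    (μ : Measure Ω) (X : ℕ → Ω → V) (hX : IsWalk G γ v μ X) (s : ℕ → V)
    (hs : Filter.Tendsto (fun n => ∏ k ∈ Finset.range n, trans G γ s k) Filter.atTop (nhds 0)) :
    μ {ω | (fun n => X n ω) = s} = 0 := by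
  have h1 : ∀ n, μ {ω | (fun n => X n ω) = s}
      ≤ ENNReal.ofReal (∏ k ∈ Finset.range n, trans G γ s k) := by
    intro n
    calc μ {ω | (fun n => X n ω) = s} ≤ μ {ω | ∀ k ≤ n, X k ω = s k} := by
          apply measure_mono
          intro ω hω k _
          exact congrFun hω k
      _ ≤ _ := by
          rw [hX.2 n s]
          split_ifs
          · exact le_rfl
          · exact zero_le
  have h2 : Filter.Tendsto (fun n => ENNReal.ofReal (∏ k ∈ Finset.range n, trans G γ s k))
      Filter.atTop (nhds 0) := by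
    have := ENNReal.tendsto_ofReal hs
    rwa [ENNReal.ofReal_zero] at this
  exact nonpos_iff_eq_zero.1 (ge_of_tendsto' h2 h1)

theorem null_trapped [Countable V] [MeasurableSpace V] (v : V) {Ω : Type} [MeasurableSpace Ω]
    (μ : Measure Ω) (X : ℕ → Ω → V) (hX : IsWalk G γ v μ X)
    (h : ∀ s, Trapped G s →
      Filter.Tendsto (fun n => ∏ k ∈ Finset.range n, trans G γ s k) Filter.atTop (nhds 0)) :
    μ {ω | Trapped G (fun n => X n ω)} = 0 := by
  have hset : {ω | Trapped G (fun n => X n ω)}
      = ⋃ s ∈ {s : ℕ → V | Trapped G s}, {ω | (fun n => X n ω) = s} := by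
    ext ω
    simp
  have hc : {s : ℕ → V | Trapped G s}.Countable := Q293.DirReinf.countable_trapped G
  rw [hset, measure_biUnion_null_iff hc]
  intro s hs
  exact null_of_tendsto G γ v μ X hX s (h s hs)

omit [DecidableRel G.Adj] in
/-- in a connected graph with a vertex of degree different from two, every circuit has a vertex with
a third neighbour -/
theorem third (hG : G.Connected) (x0 : V) (hx0 : G.degree x0 ≠ 2) (m : ℕ) (u : ZMod m → V)
    (hm : 3 ≤ m) (hinj : Function.Injective u) (hadj : ∀ i, G.Adj (u i) (u (i + 1))) :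
    ∃ a y, G.Adj (u a) y ∧ y ≠ u (a + 1) ∧ y ≠ u (a - 1) := by
  by_contra hcon
  push Not at hcon
  have hclosed : ∀ (x : V), (∃ a, x = u a) → ∀ y, G.Adj x y → ∃ b, y = u b := by
    rintro x ⟨a, rfl⟩ y hy
    by_cases h1 : y = u (a + 1)
    · exact ⟨_, h1⟩
    · exact ⟨_, hcon a y hy h1⟩
  have hall : ∀ x, ∃ a, x = u a := by
    intro x
    obtain ⟨p⟩ := hG.preconnected (u 0) x
    have hw : ∀ (x y : V), G.Walk x y → (∃ a, x = u a) → ∃ b, y = u b := by
      intro x y p
      induction p with
      | nil => exact id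
      | cons h p ih => exact fun hx => ih (hclosed _ hx _ h)
    exact hw _ _ p ⟨0, rfl⟩
  obtain ⟨a, rfl⟩ := hall x0
  apply hx0
  have hback : G.Adj (u a) (u (a - 1)) := by
    have := hadj (a - 1)
    rw [sub_add_cancel] at this
    exact this.symm
  have hset : G.neighborFinset (u a) = {u (a + 1), u (a - 1)} := by
    ext y
    rw [SimpleGraph.mem_neighborFinset, Finset.mem_insert, Finset.mem_singleton]
    constructor
    · intro hy
      by_cases h1 : y = u (a + 1)
      · exact Or.inl h1
      · exact Or.inr (hcon a y hy h1)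
    · rintro (rfl | rfl)
      · exact hadj a
      · exact hback
  rw [SimpleGraph.degree, hset, Finset.card_pair]
  intro h
  exact Q293.DirReinf.zmod_one_ne m hm a (hinj h).symm

omit [G.LocallyFinite] [DecidableRel G.Adj] in
/-- if every vertex has three neighbours, every circuit has a vertex with a third neighbour -/
theorem third' (h3 : ∀ x, ∃ a b c : V, G.Adj x a ∧ G.Adj x b ∧ G.Adj x c ∧ a ≠ b ∧ a ≠ c ∧ b ≠ c)
    (m : ℕ) (u : ZMod m → V) :
    ∃ a y, G.Adj (u a) y ∧ y ≠ u (a + 1) ∧ y ≠ u (a - 1) := by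
  obtain ⟨a, b, c, ha, hb, hc, hab, hac, hbc⟩ := h3 (u 0)
  refine ⟨0, ?_⟩
  by_contra hcon
  push Not at hcon
  by_cases h1 : a = u (0 + 1)
  · have h2 := hcon b hb (by rw [← h1]; exact hab.symm)
    have h3 := hcon c hc (by rw [← h1]; exact hac.symm)
    exact hbc (h2.trans h3.symm)
  · have h2 := hcon a ha h1
    by_cases h3 : b = u (0 + 1)
    · have h4 := hcon c hc (by rw [← h3]; exact hbc.symm)
      exact hac (h2.trans h4.symm)
    · exact hab (h2.trans (hcon b hb h3).symm)

end Helpers

/-- The integer lattice `ℤ^d` with its nearest-neighbour structure. -/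
def Zd (d : ℕ) : SimpleGraph (Fin d → ℤ) where
  Adj x y := ∃ (i : Fin d) (b : Bool), y = x + Pi.single i (if b then 1 else -1)
  symm := ⟨by
    rintro x y ⟨i, b, rfl⟩
    refine ⟨i, !b, ?_⟩
    rw [add_assoc, ← Pi.single_add]
    cases b <;> simp⟩
  loopless := ⟨by
    rintro x ⟨i, b, h⟩
    have h1 := congrFun h i
    rw [Pi.add_apply, Pi.single_eq_same] at h1
    cases b <;> simp at h1⟩

section Helpers2

theorem zd_three (d : ℕ) (hd : 2 ≤ d) (x : Fin d → ℤ) : ∃ a b c : Fin d → ℤ,
    (Zd d).Adj x a ∧ (Zd d).Adj x b ∧ (Zd d).Adj x c ∧ a ≠ b ∧ a ≠ c ∧ b ≠ c := by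
  have h01 : (⟨0, by omega⟩ : Fin d) ≠ ⟨1, by omega⟩ := by
    intro h
    have := congrArg Fin.val h
    simp at this
  refine ⟨x + Pi.single ⟨0, by omega⟩ 1, x + Pi.single ⟨0, by omega⟩ (-1),
    x + Pi.single ⟨1, by omega⟩ 1, ⟨_, true, rfl⟩, ⟨_, false, rfl⟩, ⟨_, true, rfl⟩, ?_, ?_, ?_⟩
  · intro h
    have h1 := congrFun h ⟨0, by omega⟩
    simp only [Pi.add_apply, Pi.single_eq_same] at h1
    omega
  · intro h
    have h1 := congrFun h ⟨0, by omega⟩
    simp only [Pi.add_apply, Pi.single_eq_same, Pi.single_eq_of_ne h01] at h1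
    omega
  · intro h
    have h1 := congrFun h ⟨0, by omega⟩
    simp only [Pi.add_apply, Pi.single_eq_same, Pi.single_eq_of_ne h01] at h1
    omega

end Helpers2

/-- The walk with polynomial reinforcement `γ` exists on every connected locally finite graph `G`
with more than one vertex; it is almost surely trapped in no directed circuit if `γ ≤ 1/2`, and also
if `γ ≤ 1` and some vertex of `G` has degree different from two (i.e. `G` is neither a cycle nor the
line). On `ℤ^d` with `d ≥ 2` it exists and is almost surely trapped in no directed circuit for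
every `γ ≤ 1`. -/
theorem result (γ : ℝ) (hγ : 0 < γ) :
    (∀ (V : Type) [Countable V] [Nontrivial V] [DecidableEq V] [MeasurableSpace V]
      [DiscreteMeasurableSpace V] (G : SimpleGraph V) [G.LocallyFinite] [DecidableRel G.Adj]
      (v : V), G.Connected →
      (∃ (Ω : Type) (_ : MeasurableSpace Ω) (μ : Measure Ω) (_ : IsProbabilityMeasure μ)
        (X : ℕ → Ω → V), IsWalk G γ v μ X) ∧
      ∀ (Ω : Type) [MeasurableSpace Ω] (μ : Measure Ω) [IsProbabilityMeasure μ] (X : ℕ → Ω → V),
        IsWalk G γ v μ X →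
        (γ ≤ 1 / 2 → μ {ω | Trapped G (fun n => X n ω)} = 0) ∧
        (γ ≤ 1 → (∃ x, G.degree x ≠ 2) → μ {ω | Trapped G (fun n => X n ω)} = 0)) ∧
    (∀ (d : ℕ) [MeasurableSpace (Fin d → ℤ)] [DiscreteMeasurableSpace (Fin d → ℤ)]
      [(Zd d).LocallyFinite] [DecidableRel (Zd d).Adj] (v : Fin d → ℤ), 2 ≤ d → γ ≤ 1 →
      (∃ (Ω : Type) (_ : MeasurableSpace Ω) (μ : Measure Ω) (_ : IsProbabilityMeasure μ)
        (X : ℕ → Ω → Fin d → ℤ), IsWalk (Zd d) γ v μ X) ∧
      ∀ (Ω : Type) [MeasurableSpace Ω] (μ : Measure Ω) [IsProbabilityMeasure μ]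
        (X : ℕ → Ω → Fin d → ℤ), IsWalk (Zd d) γ v μ X →
          μ {ω | Trapped (Zd d) (fun n => X n ω)} = 0) := by
  refine ⟨?_, ?_⟩
  · intro V _ _ _ _ _ G _ _ v hG
    refine ⟨exists_walk G γ (fun x => ?_) v, ?_⟩
    · obtain ⟨y, hy⟩ := hG.preconnected.exists_adj_of_nontrivial x
      exact ⟨y, (SimpleGraph.mem_neighborFinset _ _ _).2 hy⟩
    · intro Ω _ μ _ X hX
      refine ⟨fun h2 => null_trapped G γ v μ X hX fun s hs =>
        Q293.DirReinf.tendsto_small G γ hγ h2 s hs, fun h1 hx => null_trapped G γ v μ X hX ?_⟩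
      rintro s ⟨m, u, hm, hinj, hadj, N, i, hs⟩
      obtain ⟨x0, hx0⟩ := hx
      obtain ⟨a, y, hy, hy1, hy2⟩ := third G hG x0 hx0 m u hm hinj hadj
      exact Q293.DirReinf.tendsto_third G γ hγ h1 s m u hm hinj N i hs a y hy hy1 hy2
  · intro d _ _ _ _ v hd h1
    refine ⟨exists_walk (Zd d) γ (fun x => ?_) v, ?_⟩
    · obtain ⟨a, _, _, ha, _⟩ := zd_three d hd x
      exact ⟨a, (SimpleGraph.mem_neighborFinset _ _ _).2 ha⟩
    · intro Ω _ μ _ X hX
      apply null_trapped (Zd d) γ v μ X hX
      rintro s ⟨m, u, hm, hinj, hadj, N, i, hs⟩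
      obtain ⟨a, y, hy, hy1, hy2⟩ := third' (Zd d) (zd_three d hd) m u
      exact Q293.DirReinf.tendsto_third (Zd d) γ hγ h1 s m u hm hinj N i hs a y hy hy1 hy2

end Pool.Agent.Results.MP_856411_pr.NeverTrapped
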